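import Pool.Agent.helper70.FI3.SpecN3

/-!
# Project fi3 (MP_baa4d7_al), block N3: row GTR3

The trace of a good block is 1.
-/

set_option autoImplicit false

namespace Pool.Agent.FI3

open Pool.Agent.helper58.DC Pool.Agent.DI Pool.Agent.GR Pool.Agent.OB Pool.Agent.DR Pool.Agent.FI

theorem GTR3 (hHTN : HTN_stmt) : GTR3_stmt := by
  intro p M hM G _ _ D L θ hgood
  have hD0 : (Nat.card D : ℂ) ≠ 0 := by
    have h : Nat.card D ≠ 0 := Nat.card_pos.ne'
    exact_mod_cast h
  have hL0 : (Nat.card L : ℂ) ≠ 0 := by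
    have h : Nat.card L ≠ 0 := Nat.card_pos.ne'
    exact_mod_cast h
  have hfin : (Bl M L θ).Finite := by
    apply Set.finite_of_ncard_ne_zero
    rw [hgood.card]
    exact Nat.card_pos.ne'
  have hval : ∀ ψ ∈ Bl M L θ, EE p L ψ ψ = 1 / (Nat.card D : ℂ) := by
    intro ψ hψ
    have h1 := hHTN p M hM G D L θ hgood ψ hψ ψ hψ
    unfold EE
    rw [div_eq_div_iff hL0 hD0, one_mul, mul_comm]
    exact h1
  rw [finsum_mem_congr rfl hval, finsum_mem_eq_finite_toFinset_sum _ hfin, Finset.sum_const,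
    ← Set.ncard_eq_toFinset_card _ hfin, hgood.card, nsmul_eq_mul]
  field_simp

end Pool.Agent.FI3
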