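import Pool.Agent.helper70.FI3.SpecN3

/-!
# Project fi3 (MP_baa4d7_al), block N3: row QWT3

Weights.
-/

set_option autoImplicit false

namespace Pool.Agent.FI3

open Pool.Agent.helper58.DC Pool.Agent.DI Pool.Agent.GR Pool.Agent.OB Pool.Agent.DR Pool.Agent.FI

theorem QWT3_cjS_self {G : Type} [Group G] {L : Subgroup G} {l : G} (hl : l ∈ L) : cjS l L = L := by
  ext x
  rw [mem_cjS]
  constructor
  · intro h
    have h1 := L.mul_mem (L.mul_mem hl h) (L.inv_mem hl)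
    have h2 : l * (l⁻¹ * x * l) * l⁻¹ = x := by group
    rwa [h2] at h1
  · intro h
    exact L.mul_mem (L.mul_mem (L.inv_mem hl) h) hl

theorem QWT3 (hQWA : QWA3_stmt) (hQCN : QCN3_stmt) (hFEQ : FEQ_stmt) : QWT3_stmt := by
  intro p M hM G _ _ D x θ χ hlo P hP y hy hpy η hη hSB
  have hK0 : (Nat.card (Cz (cz P) y) : ℂ) ≠ 0 := by
    have h : Nat.card (Cz (cz P) y) ≠ 0 := Nat.card_pos.ne'
    exact_mod_cast h
  set S : Set (G × G) := {q : G × G | q.1 ∈ cz P ∧ q.2 ∈ D ∧ q.1 * q.2 * q.1⁻¹ = y ∧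
      SB M (Cz (cz P) y) (cjF q.1 θ) η} with hS
  have hcard : ∀ q ∈ S, Nat.card S = wt M D (cz P) θ q.2 * Nat.card (Cz (cz P) y) := by
    intro q hq
    exact hQWA p M hM G D x θ χ hlo P hP y η hη q.1 hq.1 q.2 hq.2.1 hq.2.2.1 hq.2.2.2
  have hne : S.Nonempty := by
    obtain ⟨l, hl, hlD, hlS⟩ := hQCN p M hM G D x θ χ hlo P hP y hy hpy η hη hSB
    refine ⟨(l⁻¹, l * y * l⁻¹), (cz P).inv_mem hl, hlD, by group, ?_⟩
    have h1 := (hFEQ G M l⁻¹ l P P (Cz (cz P) (l * y * l⁻¹)) θ (cjF l η) χ).2.2.2.2.1.1 hlS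
    have h2 := (hFEQ G M l⁻¹ l P P (Cz (cz P) (l * y * l⁻¹)) θ η χ).1.2.1
    have h2' := (hFEQ G M l⁻¹ l P P (Cz (cz P) (l * y * l⁻¹)) θ η χ).1.2.2.2
    have h3 := (hFEQ G M l⁻¹ l P P (cz P) θ η χ).2.2.1 (l * y * l⁻¹)
    rw [h3, QWT3_cjS_self ((cz P).inv_mem hl), h2, inv_mul_cancel, h2'] at h1
    have h4 : l⁻¹ * (l * y * l⁻¹) * l⁻¹⁻¹ = y := by group
    rw [h4] at h1
    exact h1
  have hfin : S.Finite := Set.toFinite S
  have hSn : Nat.card S ≠ 0 := by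
    haveI : Finite S := hfin
    haveI : Nonempty S := hne.to_subtype
    exact Nat.card_pos.ne'
  have hSc : (Nat.card S : ℂ) ≠ 0 := by exact_mod_cast hSn
  have hval : ∀ q ∈ S, (1 : ℂ) / (wt M D (cz P) θ q.2 : ℂ) =
      (Nat.card (Cz (cz P) y) : ℂ) / (Nat.card S : ℂ) := by
    intro q hq
    have h1 := hcard q hq
    have h2 : wt M D (cz P) θ q.2 ≠ 0 := by
      intro h0
      rw [h0, zero_mul] at h1
      exact hSn h1
    have h3 : (wt M D (cz P) θ q.2 : ℂ) ≠ 0 := by exact_mod_cast h2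
    rw [div_eq_div_iff h3 hSc, one_mul, h1]
    push_cast
    ring
  rw [finsum_mem_congr rfl hval, finsum_mem_eq_finite_toFinset_sum _ hfin, Finset.sum_const,
    ← Set.ncard_eq_toFinset_card _ hfin, nsmul_eq_mul]
  have h5 : (S.ncard : ℂ) = (Nat.card S : ℂ) := by rw [Nat.card_coe_set_eq]
  rw [h5]
  field_simp

end Pool.Agent.FI3
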