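import Pool.Agent.helper70.FI3.SpecN3

/-!
# Project fi3 (MP_baa4d7_al), block N3: row SUC3

Transport of the contributions by an element of the group.
-/

set_option autoImplicit false

namespace Pool.Agent.FI3

open Pool.Agent.helper58.DC Pool.Agent.DI Pool.Agent.GR Pool.Agent.OB Pool.Agent.DR Pool.Agent.FI

theorem SUC3_cjS_self {G : Type} [Group G] {L : Subgroup G} {l : G} (hl : l ∈ L) : cjS l L = L := by
  ext x
  rw [mem_cjS]
  constructor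
  · intro h
    have h1 := L.mul_mem (L.mul_mem hl h) (L.inv_mem hl)
    have h2 : l * (l⁻¹ * x * l) * l⁻¹ = x := by group
    rwa [h2] at h1
  · intro h
    exact L.mul_mem (L.mul_mem (L.inv_mem hl) h) hl

theorem SUC3 (hSUA : SUA3_stmt) (hQCJ : QCJ_stmt) (hFEQ : FEQ_stmt) (hB2 : B2_stmt) : SUC3_stmt := by
  intro p M G _ _ L θ u hu l hl χ' hχ y hy
  subst hy
  rw [hSUA p M G L θ u hu χ' hχ]
  have hK : cjS l (Cz L u) = Cz L (l * u * l⁻¹) := by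
    have h := (hFEQ G M l l L L L θ θ χ').2.2.1 u
    rw [SUC3_cjS_self hl] at h
    exact h
  have hclass : ∀ x, χ' (l * x * l⁻¹) = χ' x := fun x => ((hB2 G L).2 χ' hχ).2.1 x l hl
  have hbij : Set.BijOn (cjF l) (Bl M (Cz L u) θ) (Bl M (Cz L (l * u * l⁻¹)) (cjF l θ)) := by
    refine ⟨?_, ?_, ?_⟩
    · intro ψ hψ
      have h := (hFEQ G M l l L L (Cz L u) θ ψ χ').2.2.2.2.2.2.1.1 hψ
      rwa [hK] at h
    · intro ψ hψ ψ' hψ' he
      have h1 := (hFEQ G M l⁻¹ l L L L θ ψ χ').1.2.1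
      have h2 := (hFEQ G M l⁻¹ l L L L θ ψ' χ').1.2.1
      have h3 := (hFEQ G M l⁻¹ l L L L θ ψ χ').1.2.2.2
      have h4 := (hFEQ G M l⁻¹ l L L L θ ψ' χ').1.2.2.2
      rw [inv_mul_cancel, h3] at h1
      rw [inv_mul_cancel, h4] at h2
      rw [← h1, ← h2, he]
    · intro ψ hψ
      have h1 := (hFEQ G M l l⁻¹ L L L θ ψ χ').1.2.1
      have h3 := (hFEQ G M l l⁻¹ L L L θ ψ χ').1.2.2.2
      rw [mul_inv_cancel, h3] at h1
      refine ⟨cjF l⁻¹ ψ, ?_, h1⟩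
      refine (hFEQ G M l l L L (Cz L u) θ (cjF l⁻¹ ψ) χ').2.2.2.2.2.2.1.2 ?_
      rw [hK, h1]
      exact hψ
  have hv1 : ∀ ψ : G → ℂ, cjF l ψ 1 = ψ 1 := by
    intro ψ
    rw [cjF_apply]
    congr 1
    group
  have hvu : ∀ ψ : G → ℂ, cjF l ψ (l * u * l⁻¹) = ψ u := by
    intro ψ
    rw [cjF_apply]
    congr 1
    group
  have hmt : ∀ ψ : G → ℂ, mt (Cz L (l * u * l⁻¹)) χ' (cjF l ψ) = mt (Cz L u) χ' ψ := by
    intro ψ
    rw [← hK]
    exact (hQCJ G l (Cz L u)).2 χ' hclass ψ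
  have hEE : ∀ ψ ψ' : G → ℂ, EE p (Cz L (l * u * l⁻¹)) (cjF l ψ) (cjF l ψ') = EE p (Cz L u) ψ ψ' := by
    intro ψ ψ'
    rw [← hK]
    exact (hQCJ G l (Cz L u)).1 p ψ ψ'
  refine finsum_mem_eq_of_bijOn (cjF l) hbij fun ψ hψ => ?_
  refine finsum_mem_eq_of_bijOn (cjF l) hbij fun ψ' hψ' => ?_
  rw [hmt, hmt, hEE, hv1, hv1, hvu, hvu]

end Pool.Agent.FI3
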